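import Pool.Agent.Helper71.UN.StD

/-!
# UN, module VG: plane geometry of the rays at a vertex
-/

set_option autoImplicit false

open Set Filter Topology Matrix
open scoped ContDiff ComplexConjugate

noncomputable section

namespace Pool.Agent.Helper97.UN

open Pool.Agent.Helper71.UN

/-- A positive lower bound of finitely many positive numbers. -/
lemma exists_lb {ι : Type} (s : Finset ι) (f : ι → ℝ) (hf : ∀ x ∈ s, 0 < f x) :
    ∃ c : ℝ, 0 < c ∧ ∀ x ∈ s, c ≤ f x := by
  classical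
  induction s using Finset.induction_on with
  | empty => exact ⟨1, one_pos, by simp⟩
  | insert a s ha ih =>
    obtain ⟨c, hc, h⟩ := ih (fun x hx => hf x (Finset.mem_insert_of_mem hx))
    refine ⟨min c (f a), lt_min hc (hf a (Finset.mem_insert_self _ _)), ?_⟩
    intro x hx
    rcases Finset.mem_insert.1 hx with rfl | hx
    · exact min_le_right _ _
    · exact (min_le_left _ _).trans (h x hx)

/-- The geometric statement in real coordinates. -/
lemma core (m : ℕ) (p q : ℕ → ℝ) (hp : ∀ i, i < m → 0 < p i)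
    (hpq : ∀ i, i < m → p i ^ 2 + q i ^ 2 = 1)
    (hord : ∀ i, i + 1 < m → 0 < q (i + 1) * p i - q i * p (i + 1)) :
    ∃ R₀ : ℝ, 1 < R₀ ∧ ∀ X Y r : ℝ, R₀ ≤ r → r ^ 2 = X ^ 2 + Y ^ 2 →
      (∀ i, i < m → 0 < X * p i + Y * q i → |Y * p i - X * q i| ≤ 1 → 1 ≤ X ∧
        (∀ i', i' < i → 1 ≤ Y * p i' - X * q i') ∧
        ∀ i', i < i' → i' < m → Y * p i' - X * q i' ≤ -1) ∧
      (-1 ≤ X → (∀ i, i < m → ¬ (0 < X * p i + Y * q i ∧ |Y * p i - X * q i| ≤ 1)) →
        ∃ j, j ≤ m ∧ (∀ i, i < j → 1 ≤ Y * p i - X * q i) ∧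
          ∀ i, j ≤ i → i < m → Y * p i - X * q i ≤ -1) ∧
      (|X| ≤ 1 → (0 < Y ∧ ∀ i, i < m → 1 ≤ Y * p i - X * q i) ∨
        (Y < 0 ∧ ∀ i, i < m → Y * p i - X * q i ≤ -1)) := by
  classical
  -- transitivity
  have htr : ∀ i i', i < i' → i' < m → 0 < q i' * p i - q i * p i' := by
    intro i i' hii
    induction i', hii using Nat.le_induction with
    | base => intro h; exact hord i h
    | succ k hk ih =>
      intro hkm
      have h1 := ih (by omega)
      have h2 := hord k hkm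
      have h3 := hp k (by omega)
      have h4 := hp (k + 1) hkm
      have h5 := hp i (by omega)
      have h6 : (q (k + 1) * p i - q i * p (k + 1)) * p k
          = (q k * p i - q i * p k) * p (k + 1) + (q (k + 1) * p k - q k * p (k + 1)) * p i := by
        ring
      have h7 : 0 < (q (k + 1) * p i - q i * p (k + 1)) * p k := by
        rw [h6]; positivity
      exact pos_of_mul_pos_left h7 h3.le
  obtain ⟨c₁, hc₁, h₁⟩ := exists_lb (Finset.range m) p
    (fun i hi => hp i (Finset.mem_range.1 hi))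
  obtain ⟨c₂, hc₂, h₂⟩ := exists_lb
    (((Finset.range m) ×ˢ (Finset.range m)).filter (fun x => x.1 < x.2))
    (fun x => q x.2 * p x.1 - q x.1 * p x.2) (by
      intro x hx
      simp only [Finset.mem_filter, Finset.mem_product, Finset.mem_range] at hx
      exact htr _ _ hx.2 hx.1.2)
  set c := min c₁ c₂ with hc
  have hc0 : 0 < c := lt_min hc₁ hc₂
  have hcp : ∀ i, i < m → c ≤ p i := fun i hi =>
    (min_le_left _ _).trans (h₁ i (Finset.mem_range.2 hi))
  have hcD : ∀ i i', i < i' → i' < m → c ≤ q i' * p i - q i * p i' := by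
    intro i i' h h'
    refine (min_le_right _ _).trans (h₂ (i, i') ?_)
    simp only [Finset.mem_filter, Finset.mem_product, Finset.mem_range]
    exact ⟨⟨h.trans h', h'⟩, h⟩
  refine ⟨3 / c + 1, by have : 0 < 3 / c := by positivity
                        linarith, ?_⟩
  intro X Y r hr hXY
  have h3c : 0 < 3 / c := by positivity
  have hr1 : 0 ≤ r - 1 := by linarith
  have hrc : 3 ≤ (r - 1) * c := by
    have : 3 / c ≤ r - 1 := by linarith
    rwa [div_le_iff₀ hc0] at this
  -- bounds on the q, p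
  have hq1 : ∀ i, i < m → |q i| ≤ 1 := by
    intro i hi
    have := hpq i hi
    exact abs_le_one_iff_mul_self_le_one.2 (by nlinarith [sq_nonneg (p i)])
  have hp1 : ∀ i, i < m → |p i| ≤ 1 := by
    intro i hi
    have := hpq i hi
    exact abs_le_one_iff_mul_self_le_one.2 (by nlinarith [sq_nonneg (q i)])
  have hC1 : ∀ i i', i < m → i' < m → |p i * p i' + q i * q i'| ≤ 1 := by
    intro i i' hi hi'
    have e1 := hpq i hi
    have e2 := hpq i' hi'
    refine abs_le.2 ⟨?_, ?_⟩
    · nlinarith [sq_nonneg (p i + p i'), sq_nonneg (q i + q i')]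
    · nlinarith [sq_nonneg (p i - p i'), sq_nonneg (q i - q i')]
  have hmul : ∀ a b : ℝ, |a| ≤ 1 → |b| ≤ 1 → -1 ≤ a * b ∧ a * b ≤ 1 := by
    intro a b ha hb
    have : |a * b| ≤ 1 := by
      rw [abs_mul]
      nlinarith [abs_nonneg a, abs_nonneg b]
    exact abs_le.1 this
  have hnorm : ∀ i, i < m → (X * p i + Y * q i) ^ 2 + (Y * p i - X * q i) ^ 2 = r ^ 2 := by
    intro i hi
    rw [hXY]
    have := hpq i hi
    calc (X * p i + Y * q i) ^ 2 + (Y * p i - X * q i) ^ 2
        = (X ^ 2 + Y ^ 2) * (p i ^ 2 + q i ^ 2) := by ring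
      _ = _ := by rw [this, mul_one]
  have hX : ∀ i, i < m → X = (X * p i + Y * q i) * p i - (Y * p i - X * q i) * q i := by
    intro i hi
    have := hpq i hi
    calc X = X * (p i ^ 2 + q i ^ 2) := by rw [this, mul_one]
      _ = _ := by ring
  -- squares
  have hsq : ∀ t h : ℝ, t ^ 2 + h ^ 2 = r ^ 2 → |h| ≤ 1 → r - 1 ≤ |t| := by
    intro t h hth hh1
    have h1 : h ^ 2 ≤ 1 := (sq_le_one_iff_abs_le_one h).2 hh1
    have h2 : (r - 1) ^ 2 ≤ |t| ^ 2 := by
      rw [sq_abs]; nlinarith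
    exact (sq_le_sq₀ hr1 (abs_nonneg t)).1 h2
  -- change of the ray
  have hch : ∀ i i', i < m → i' < m → Y * p i' - X * q i' =
      -(X * p i + Y * q i) * (q i' * p i - q i * p i') +
        (Y * p i - X * q i) * (p i * p i' + q i * q i') := by
    intro i i' hi hi'
    have := hpq i hi
    have h1 : -(X * p i + Y * q i) * (q i' * p i - q i * p i') +
        (Y * p i - X * q i) * (p i * p i' + q i * q i')
        = (Y * p i' - X * q i') * (p i ^ 2 + q i ^ 2) := by ring
    rw [h1, this, mul_one]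
  -- third item
  have h3 : |X| ≤ 1 → (0 < Y ∧ ∀ i, i < m → 1 ≤ Y * p i - X * q i) ∨
        (Y < 0 ∧ ∀ i, i < m → Y * p i - X * q i ≤ -1) := by
    intro hX1
    have hY := hsq Y X (by rw [hXY]; ring) hX1
    have hr0 : 0 < r - 1 := by
      by_contra hcon
      have : r - 1 = 0 := le_antisymm (not_lt.1 hcon) hr1
      rw [this] at hrc; linarith
    rcases le_or_gt 0 Y with hY0 | hY0
    · left
      rw [abs_of_nonneg hY0] at hY
      refine ⟨by linarith, fun i hi => ?_⟩
      have h1 := (hmul X (q i) hX1 (hq1 i hi)).2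
      have h2 : (r - 1) * c ≤ Y * p i :=
        mul_le_mul hY (hcp i hi) hc0.le hY0
      linarith
    · right
      rw [abs_of_neg hY0] at hY
      refine ⟨hY0, fun i hi => ?_⟩
      have h1 := (hmul X (q i) hX1 (hq1 i hi)).1
      have h2 : (r - 1) * c ≤ (-Y) * p i :=
        mul_le_mul hY (hcp i hi) hc0.le (by linarith)
      linarith
  refine ⟨?_, ?_, h3⟩
  · intro i hi ht hh1
    have htr1 := hsq _ _ (hnorm i hi) hh1
    rw [abs_of_pos ht] at htr1
    refine ⟨?_, ?_, ?_⟩
    · rw [hX i hi]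
      have h1 := (hmul _ (q i) hh1 (hq1 i hi)).2
      have h2 : (r - 1) * c ≤ (X * p i + Y * q i) * p i :=
        mul_le_mul htr1 (hcp i hi) hc0.le ht.le
      linarith
    · intro i' hi'
      have hi'm : i' < m := hi'.trans hi
      rw [hch i i' hi hi'm]
      have h1 := (hmul _ _ hh1 (hC1 i i' hi hi'm)).1
      have hD := hcD i' i hi' hi
      have h2 : (r - 1) * c ≤ (X * p i + Y * q i) * (q i * p i' - q i' * p i) :=
        mul_le_mul htr1 hD hc0.le ht.le
      nlinarith
    · intro i' hi' hi'm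
      rw [hch i i' hi hi'm]
      have h1 := (hmul _ _ hh1 (hC1 i i' hi hi'm)).2
      have hD := hcD i i' hi' hi'm
      have h2 : (r - 1) * c ≤ (X * p i + Y * q i) * (q i' * p i - q i * p i') :=
        mul_le_mul htr1 hD hc0.le ht.le
      nlinarith
  · intro hX1 hno
    -- all distances are larger than one
    have hbig : ∀ i, i < m → 1 < |Y * p i - X * q i| := by
      intro i hi
      by_contra hcon
      have hh1 : |Y * p i - X * q i| ≤ 1 := not_lt.1 hcon
      have ht : X * p i + Y * q i ≤ 0 := by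
        by_contra h
        exact hno i hi ⟨not_le.1 h, hh1⟩
      have htr1 := hsq _ _ (hnorm i hi) hh1
      rw [abs_of_nonpos ht] at htr1
      have h1 := (hmul _ (q i) hh1 (hq1 i hi)).1
      have h2 : (r - 1) * c ≤ -(X * p i + Y * q i) * p i :=
        mul_le_mul htr1 (hcp i hi) hc0.le (by linarith)
      have h4 := hX i hi
      nlinarith
    have hmono : ∀ i i', i' < i → i < m → 1 < Y * p i - X * q i → 1 < Y * p i' - X * q i' := by
      intro i i' hii hi hh1
      have hi'm := hii.trans hi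
      rcases le_or_gt 0 X with hX0 | hX0
      · have h1 : (Y * p i' - X * q i') * p i
            = (Y * p i - X * q i) * p i' + X * (q i * p i' - q i' * p i) := by ring
        have h2 : 0 < (Y * p i' - X * q i') * p i := by
          rw [h1]
          have a1 : 0 < (Y * p i - X * q i) * p i' := mul_pos (by linarith) (hp i' hi'm)
          have a2 : 0 ≤ X * (q i * p i' - q i' * p i) := mul_nonneg hX0 (htr i' i hii hi).le
          linarith
        have h4 : 0 < Y * p i' - X * q i' := pos_of_mul_pos_left h2 (hp i hi).le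
        have h5 := hbig i' hi'm
        rwa [abs_of_pos h4] at h5
      · rcases h3 (abs_le.2 ⟨hX1, by linarith⟩) with ⟨_, h⟩ | ⟨_, h⟩
        · have h5 := hbig i' hi'm
          rwa [abs_of_pos (by linarith [h i' hi'm])] at h5
        · linarith [h i hi]
    have hex : ∃ j, m ≤ j ∨ Y * p j - X * q j ≤ 1 := ⟨m, Or.inl le_rfl⟩
    refine ⟨Nat.find hex, Nat.find_min' hex (Or.inl le_rfl), ?_, ?_⟩
    · intro i hi
      have := Nat.find_min hex hi
      push Not at this
      exact this.2.le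
    · intro i hji him
      have hbi := hbig i him
      rcases Nat.find_spec hex with h | h
      · exact absurd (h.trans hji) (not_le.2 him)
      · by_contra hcon
        have h1 : 1 < Y * p i - X * q i := by
          rcases lt_abs.1 hbi with h5 | h5
          · exact h5
          · exfalso; apply hcon; linarith
        rcases lt_or_eq_of_le hji with hlt | heq
        · have := hmono i _ hlt him h1
          linarith
        · rw [heq] at h
          linarith

/-- Coordinates. -/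
lemma hh_coord (e d z : ℂ) (he : e ≠ 0) (hd : d ≠ 0) :
    hh d z = (z * conj e).im / ‖e‖ * ((d * conj e).re / (‖d‖ * ‖e‖)) -
      (z * conj e).re / ‖e‖ * ((d * conj e).im / (‖d‖ * ‖e‖)) := by
  have hen : ‖e‖ ≠ 0 := norm_ne_zero_iff.2 he
  have hdn : ‖d‖ ≠ 0 := norm_ne_zero_iff.2 hd
  have h2 : ‖e‖ ^ 2 = e.re * e.re + e.im * e.im := by
    rw [← Complex.normSq_eq_norm_sq, Complex.normSq_apply]
  unfold hh
  have h3 : (z * conj e).im * (d * conj e).re - (z * conj e).re * (d * conj e).im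
      = (z * conj d).im * ‖e‖ ^ 2 := by
    rw [h2]
    simp only [Complex.mul_re, Complex.mul_im, Complex.conj_re, Complex.conj_im]
    ring
  have h4 : (z * conj e).im / ‖e‖ * ((d * conj e).re / (‖d‖ * ‖e‖)) -
      (z * conj e).re / ‖e‖ * ((d * conj e).im / (‖d‖ * ‖e‖))
      = ((z * conj e).im * (d * conj e).re - (z * conj e).re * (d * conj e).im) /
        (‖d‖ * ‖e‖ ^ 2) := by
    field_simp
  rw [h4, h3]
  field_simp

lemma tt_coord (e d z : ℂ) (he : e ≠ 0) (hd : d ≠ 0) :
    tt d z = (z * conj e).re / ‖e‖ * ((d * conj e).re / (‖d‖ * ‖e‖)) +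
      (z * conj e).im / ‖e‖ * ((d * conj e).im / (‖d‖ * ‖e‖)) := by
  have hen : ‖e‖ ≠ 0 := norm_ne_zero_iff.2 he
  have hdn : ‖d‖ ≠ 0 := norm_ne_zero_iff.2 hd
  have h2 : ‖e‖ ^ 2 = e.re * e.re + e.im * e.im := by
    rw [← Complex.normSq_eq_norm_sq, Complex.normSq_apply]
  unfold tt
  have h3 : (z * conj e).re * (d * conj e).re + (z * conj e).im * (d * conj e).im
      = (z * conj d).re * ‖e‖ ^ 2 := by
    rw [h2]
    simp only [Complex.mul_re, Complex.mul_im, Complex.conj_re, Complex.conj_im]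
    ring
  have h4 : (z * conj e).re / ‖e‖ * ((d * conj e).re / (‖d‖ * ‖e‖)) +
      (z * conj e).im / ‖e‖ * ((d * conj e).im / (‖d‖ * ‖e‖))
      = ((z * conj e).re * (d * conj e).re + (z * conj e).im * (d * conj e).im) /
        (‖d‖ * ‖e‖ ^ 2) := by
    field_simp
  rw [h4, h3]
  field_simp

lemma norm_coord (e z : ℂ) (he : e ≠ 0) :
    ‖z‖ ^ 2 = ((z * conj e).re / ‖e‖) ^ 2 + ((z * conj e).im / ‖e‖) ^ 2 := by
  have hen : ‖e‖ ≠ 0 := norm_ne_zero_iff.2 he
  have h1 : ‖z * conj e‖ ^ 2 = (z * conj e).re ^ 2 + (z * conj e).im ^ 2 := by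
    rw [← Complex.normSq_eq_norm_sq, Complex.normSq_apply]; ring
  have h2 : ‖z * conj e‖ = ‖z‖ * ‖e‖ := by
    rw [norm_mul, Complex.norm_conj]
  rw [h2] at h1
  rw [div_pow, div_pow, ← add_div, ← h1]
  field_simp

lemma pq_coord (e d : ℂ) (he : e ≠ 0) (hd : d ≠ 0) :
    ((d * conj e).re / (‖d‖ * ‖e‖)) ^ 2 + ((d * conj e).im / (‖d‖ * ‖e‖)) ^ 2 = 1 := by
  have hen : ‖e‖ ≠ 0 := norm_ne_zero_iff.2 he
  have hdn : ‖d‖ ≠ 0 := norm_ne_zero_iff.2 hd
  have h1 : ‖d * conj e‖ ^ 2 = (d * conj e).re ^ 2 + (d * conj e).im ^ 2 := by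
    rw [← Complex.normSq_eq_norm_sq, Complex.normSq_apply]; ring
  have h2 : ‖d * conj e‖ = ‖d‖ * ‖e‖ := by
    rw [norm_mul, Complex.norm_conj]
  rw [div_pow, div_pow, ← add_div, ← h1, h2]
  exact div_self (pow_ne_zero 2 (mul_ne_zero hdn hen))

lemma dt_coord (e d d' : ℂ) (he : e ≠ 0) (hd : d ≠ 0) (hd' : d' ≠ 0) :
    (d' * conj e).im / (‖d'‖ * ‖e‖) * ((d * conj e).re / (‖d‖ * ‖e‖)) -
      (d * conj e).im / (‖d‖ * ‖e‖) * ((d' * conj e).re / (‖d'‖ * ‖e‖)) =
      dt d d' / (‖d‖ * ‖d'‖) := by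
  have hen : ‖e‖ ≠ 0 := norm_ne_zero_iff.2 he
  have hdn : ‖d‖ ≠ 0 := norm_ne_zero_iff.2 hd
  have hdn' : ‖d'‖ ≠ 0 := norm_ne_zero_iff.2 hd'
  have h2 : ‖e‖ ^ 2 = e.re * e.re + e.im * e.im := by
    rw [← Complex.normSq_eq_norm_sq, Complex.normSq_apply]
  unfold dt
  have h3 : (d' * conj e).im * (d * conj e).re - (d * conj e).im * (d' * conj e).re
      = (d' * conj d).im * ‖e‖ ^ 2 := by
    rw [h2]
    simp only [Complex.mul_re, Complex.mul_im, Complex.conj_re, Complex.conj_im]
    ring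
  have h4 : (d' * conj e).im / (‖d'‖ * ‖e‖) * ((d * conj e).re / (‖d‖ * ‖e‖)) -
      (d * conj e).im / (‖d‖ * ‖e‖) * ((d' * conj e).re / (‖d'‖ * ‖e‖))
      = ((d' * conj e).im * (d * conj e).re - (d * conj e).im * (d' * conj e).re) /
        (‖d‖ * ‖d'‖ * ‖e‖ ^ 2) := by
    field_simp
  rw [h4, h3]
  field_simp

/-- **VG**. -/
theorem hVG : Pool.Agent.Helper71.UN.StVG := by
  intro e dA dB mA mB he hA hB
  have hen : 0 < ‖e‖ := norm_pos_iff.2 he
  have hdA : ∀ i, i < mA → dA i ≠ 0 := by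
    intro i hi h0
    have := hA.re i hi
    rw [h0] at this; simp at this
  have hdB : ∀ i, i < mB → dB i ≠ 0 := by
    intro i hi h0
    have := hB.re i hi
    rw [h0] at this; simp at this
  obtain ⟨R₁, hR₁, h₁⟩ := core mA (fun i => (dA i * conj e).re / (‖dA i‖ * ‖e‖))
    (fun i => (dA i * conj e).im / (‖dA i‖ * ‖e‖))
    (by
      intro i hi
      have h1 : 0 < ‖dA i‖ := norm_pos_iff.2 (hdA i hi)
      exact div_pos (hA.re i hi) (mul_pos h1 hen))
    (fun i hi => pq_coord e (dA i) he (hdA i hi))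
    (by
      intro i hi
      have h0 := hdA i (by omega)
      have h1 := hdA (i + 1) hi
      have h := dt_coord e (dA i) (dA (i + 1)) he h0 h1
      show 0 < (dA (i + 1) * conj e).im / (‖dA (i + 1)‖ * ‖e‖) *
        ((dA i * conj e).re / (‖dA i‖ * ‖e‖)) -
        (dA i * conj e).im / (‖dA i‖ * ‖e‖) * ((dA (i + 1) * conj e).re / (‖dA (i + 1)‖ * ‖e‖))
      rw [h]
      exact div_pos (hA.ord i hi) (mul_pos (norm_pos_iff.2 h0) (norm_pos_iff.2 h1)))
  obtain ⟨R₂, hR₂, h₂⟩ := core mB (fun i => -((dB i * conj e).re / (‖dB i‖ * ‖e‖)))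
    (fun i => (dB i * conj e).im / (‖dB i‖ * ‖e‖))
    (by
      intro i hi
      have h1 : 0 < ‖dB i‖ := norm_pos_iff.2 (hdB i hi)
      exact neg_pos.2 (div_neg_of_neg_of_pos (hB.re i hi) (mul_pos h1 hen)))
    (fun i hi => by
      have := pq_coord e (dB i) he (hdB i hi)
      simpa only [neg_sq] using this)
    (by
      intro i hi
      have h0 := hdB i (by omega)
      have h1 := hdB (i + 1) hi
      have h := dt_coord e (dB (i + 1)) (dB i) he h1 h0
      have h5 : 0 < dt (dB (i + 1)) (dB i) / (‖dB (i + 1)‖ * ‖dB i‖) :=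
        div_pos (hB.ord i hi) (mul_pos (norm_pos_iff.2 h1) (norm_pos_iff.2 h0))
      rw [← h] at h5
      show 0 < (dB (i + 1) * conj e).im / (‖dB (i + 1)‖ * ‖e‖) *
        -((dB i * conj e).re / (‖dB i‖ * ‖e‖)) -
        (dB i * conj e).im / (‖dB i‖ * ‖e‖) * -((dB (i + 1) * conj e).re / (‖dB (i + 1)‖ * ‖e‖))
      linarith)
  refine ⟨max R₁ R₂, lt_max_of_lt_left (by linarith), ?_⟩
  intro z hz
  obtain ⟨a1, a2, a3⟩ := h₁ ((z * conj e).re / ‖e‖) ((z * conj e).im / ‖e‖) ‖z‖
    ((le_max_left _ _).trans hz) (norm_coord e z he)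
  obtain ⟨b1, b2, b3⟩ := h₂ (-((z * conj e).re / ‖e‖)) ((z * conj e).im / ‖e‖) ‖z‖
    ((le_max_right _ _).trans hz) (by rw [neg_sq]; exact norm_coord e z he)
  have hxe : (z * conj e).re = (z * conj e).re / ‖e‖ * ‖e‖ := by field_simp
  -- rewriting of the coordinates
  have eh : ∀ i, i < mA → hh (dA i) z = (z * conj e).im / ‖e‖ *
      ((dA i * conj e).re / (‖dA i‖ * ‖e‖)) -
      (z * conj e).re / ‖e‖ * ((dA i * conj e).im / (‖dA i‖ * ‖e‖)) :=
    fun i hi => hh_coord e (dA i) z he (hdA i hi)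
  have et : ∀ i, i < mA → tt (dA i) z = (z * conj e).re / ‖e‖ *
      ((dA i * conj e).re / (‖dA i‖ * ‖e‖)) +
      (z * conj e).im / ‖e‖ * ((dA i * conj e).im / (‖dA i‖ * ‖e‖)) :=
    fun i hi => tt_coord e (dA i) z he (hdA i hi)
  have fh : ∀ i, i < mB → (z * conj e).im / ‖e‖ *
      -((dB i * conj e).re / (‖dB i‖ * ‖e‖)) -
      -((z * conj e).re / ‖e‖) * ((dB i * conj e).im / (‖dB i‖ * ‖e‖)) = -hh (dB i) z := by
    intro i hi
    rw [hh_coord e (dB i) z he (hdB i hi)]; ring
  have ft : ∀ i, i < mB → -((z * conj e).re / ‖e‖) *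
      -((dB i * conj e).re / (‖dB i‖ * ‖e‖)) +
      (z * conj e).im / ‖e‖ * ((dB i * conj e).im / (‖dB i‖ * ‖e‖)) = tt (dB i) z := by
    intro i hi
    rw [tt_coord e (dB i) z he (hdB i hi)]; ring
  refine ⟨?_, ?_, ?_, ?_, ?_⟩
  · intro i hi ht hh1
    obtain ⟨c1, c2, c3⟩ := a1 i hi (by rw [← et i hi]; exact ht) (by rw [← eh i hi]; exact hh1)
    refine ⟨?_, ?_, ?_⟩
    · rwa [le_div_iff₀ hen, one_mul] at c1
    · intro i' hi'
      rw [eh i' (hi'.trans hi)]; exact c2 i' hi'
    · intro i' hi' hm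
      rw [eh i' hm]; exact c3 i' hi' hm
  · intro i hi ht hh1
    obtain ⟨c1, c2, c3⟩ := b1 i hi (by simp only [ft i hi]; exact ht)
      (by simp only [fh i hi, abs_neg]; exact hh1)
    refine ⟨?_, ?_, ?_⟩
    · have : (z * conj e).re / ‖e‖ ≤ -1 := by linarith
      rw [div_le_iff₀ hen] at this; linarith
    · intro i' hi'
      have := c2 i' hi'
      simp only [fh i' (hi'.trans hi)] at this; linarith
    · intro i' hi' hm
      have := c3 i' hi' hm
      simp only [fh i' hm] at this; linarith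
  · intro hx hno
    obtain ⟨j, hj, c1, c2⟩ := a2 (by rw [le_div_iff₀ hen]; linarith) (by
      intro i hi hcon
      simp only [← eh i hi, ← et i hi] at hcon
      exact hno i hi hcon)
    refine ⟨j, hj, ?_, ?_⟩
    · intro i hi
      rw [eh i (hi.trans_le hj)]; exact c1 i hi
    · intro i hi hm
      rw [eh i hm]; exact c2 i hi hm
  · intro hx hno
    obtain ⟨j, hj, c1, c2⟩ := b2 (by
      have : (z * conj e).re / ‖e‖ ≤ 1 := by rw [div_le_iff₀ hen]; linarith
      linarith) (by
      intro i hi hcon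
      simp only [fh i hi, ft i hi, abs_neg] at hcon
      exact hno i hi hcon)
    refine ⟨j, hj, ?_, ?_⟩
    · intro i hi
      have := c1 i hi
      simp only [fh i (hi.trans_le hj)] at this; linarith
    · intro i hi hm
      have := c2 i hi hm
      simp only [fh i hm] at this; linarith
  · intro hx
    have hx1 : |(z * conj e).re / ‖e‖| ≤ 1 := by
      rw [abs_div, abs_of_pos hen, div_le_iff₀ hen, one_mul]; exact hx
    rcases a3 hx1 with ⟨hY, c⟩ | ⟨hY, c⟩
    · left
      refine ⟨fun i hi => by rw [eh i hi]; exact c i hi, ?_⟩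
      rcases b3 (by rw [abs_neg]; exact hx1) with ⟨hY', c'⟩ | ⟨hY', c'⟩
      · intro i hi
        have := c' i hi
        simp only [fh i hi] at this; linarith
      · exact absurd hY (not_lt.2 hY'.le)
    · right
      refine ⟨fun i hi => by rw [eh i hi]; exact c i hi, ?_⟩
      rcases b3 (by rw [abs_neg]; exact hx1) with ⟨hY', c'⟩ | ⟨hY', c'⟩
      · exact absurd hY (not_lt.2 hY'.le)
      · intro i hi
        have := c' i hi
        simp only [fh i hi] at this; linarith

end Pool.Agent.Helper97.UN
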